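import Pool.Agent.W495.TA.Stms

/-!
# Pull-backs along homomorphisms given by matching weights
-/

set_option autoImplicit false

namespace Pool.Agent.W82.TA

open NumberField Pool.Agent.H204R3.CM Pool.Agent.W547.KB Pool.Agent.W547.LD Module
open Pool.Agent.W495.TA
open scoped TensorProduct

noncomputable section

variable {p : ℕ} [Fact p.Prime] {ν : PadicAlgCl p ≃+* ℂ} {Ω : Type} [Field Ω] [CharZero Ω]

theorem co_tmul {L : Type} [Field L] (jO : L →+* Ω) {Y : RedAV p ν} (w : Wt Y.X L) (c : Ω)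
    (x : Y.X.H1) : co jO w (c ⊗ₜ[ℚ] x) = c * jO (w.2 (x w.1)) := by
  unfold co
  rw [LinearMap.liftBaseChange_tmul]
  rfl

theorem co_F {L : Type} [Field L] (jO : L →+* Ω) {Y : RedAV p ν} (w : Wt Y.X L)
    (v : TM Ω Y) : co jO w (F Ω Y v) = jO (w.2 (Y.π w.1)) * co jO w v := by
  induction v using TensorProduct.induction_on with
  | zero => rw [map_zero, map_zero, mul_zero]
  | tmul c x =>
    unfold F
    rw [LinearMap.baseChange_tmul, co_tmul, co_tmul]
    change c * jO (w.2 (Y.π w.1 * x w.1)) = _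
    rw [map_mul, map_mul]
    ring
  | add x y hx hy => rw [map_add, map_add, map_add, hx, hy, mul_add]

theorem co_F_pow {L : Type} [Field L] (jO : L →+* Ω) {Y : RedAV p ν} (w : Wt Y.X L) (s : ℕ)
    (v : TM Ω Y) : co jO w ((F Ω Y ^ s) v) = jO (w.2 (Y.π w.1)) ^ s * co jO w v := by
  induction s generalizing v with
  | zero => rw [pow_zero, pow_zero, one_mul]; rfl
  | succ s ih =>
    rw [pow_succ, Module.End.mul_apply, ih, co_F, pow_succ]
    ring

theorem tf_smul {L : Type} [Field L] [NumberField L] (j : L →+* ℂ) (A : CMPair)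
    (φ : A.E →+* L) (σ : L ≃ₐ[ℚ] L) :
    tf p ν j (hs A j (σ • φ)) 1 = tf p ν j (hs A j φ) σ := by
  unfold tf
  refine Finset.sum_congr rfl fun d _ => ?_
  have h : (d * 1 ∈ hs A j (σ • φ)) ↔ (d * σ ∈ hs A j φ) := by
    change j.comp ((d * 1) • (σ • φ)) ∈ A.Φ ↔ j.comp ((d * σ) • φ) ∈ A.Φ
    rw [mul_one, mul_smul]
  by_cases hd : d ∈ Dec p ν j
  · rw [if_pos hd, if_pos hd]
    by_cases h' : d * σ ∈ hs A j φ
    · rw [if_pos (h.mpr h'), if_pos h']
    · rw [if_neg (fun h2 => h' (h.mp h2)), if_neg h']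
  · rw [if_neg hd, if_neg hd]

theorem cancel_norm {x y P : ℝ} (hx : 0 ≤ x) (hy : 0 ≤ y) (a b D : ℕ) (hD : 0 < D)
    (T : ℤ) (h1 : x ^ (2 * (D : ℤ)) = (P ^ a) ^ T) (h2 : y ^ (2 * (D : ℤ)) = (P ^ b) ^ T) :
    x ^ b = y ^ a := by
  have hz : ∀ z : ℝ, z ^ (2 * (D : ℤ)) = z ^ (2 * D) := fun z => by
    exact_mod_cast zpow_natCast z (2 * D)
  have h3 : (x ^ b) ^ (2 * D) = (y ^ a) ^ (2 * D) := by
    have e1 : (x ^ b) ^ (2 * D) = (x ^ (2 * (D : ℤ))) ^ b := by
      rw [hz, ← pow_mul, ← pow_mul, mul_comm]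
    have e2 : (y ^ a) ^ (2 * D) = (y ^ (2 * (D : ℤ))) ^ a := by
      rw [hz, ← pow_mul, ← pow_mul, mul_comm]
    rw [e1, e2, h1, h2, ← zpow_natCast, ← zpow_natCast, ← zpow_natCast, ← zpow_natCast,
      ← zpow_mul, ← zpow_mul, ← zpow_mul, ← zpow_mul]
    congr 1
    ring
  exact (pow_left_inj₀ (pow_nonneg hx b) (pow_nonneg hy a) (by omega)).mp h3

theorem match_weights (hval : S_val) (hru : S_ru) {L : Type} [Field L] [NumberField L]
    [IsCMField L] [IsGalois ℚ L] (j : L →+* ℂ) (Y Z : RedAV p ν) (hY : Big Y.X j)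
    (hZ : Big Z.X j) (w : Wt Y.X L) (w' : Wt Z.X L)
    (h : tf p ν j (St j w) = tf p ν j (St j w')) :
    ∃ n : ℕ, 0 < n ∧ (w.2 (Y.π w.1)) ^ (Z.a * n) = (w'.2 (Z.π w'.1)) ^ (Y.a * n) := by
  have hV : ∀ (X : RedAV p ν) (hX : Big X.X j) (u : Wt X.X L) (σ : L ≃ₐ[ℚ] L),
      ‖ν.symm (j (σ (u.2 (X.π u.1))))‖ ^ (2 * (Nat.card (Dec p ν j) : ℤ)) =
        (‖(p : PadicAlgCl p)‖ ^ X.a) ^ ((Nat.card (Dec p ν j) : ℤ) + tf p ν j (St j u) σ) := by
    intro X hX u σ
    have h1 := (hval p ν L j (X.X.factor u.1) (hX u.1) X.a (X.π u.1)).mp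
      (X.frob u.1).shimuraTaniyama (σ • u.2)
    rw [tf_smul, norm_pow] at h1
    exact h1
  have hI : ∀ (X : RedAV p ν) (u : Wt X.X L), IsIntegral ℤ (u.2 (X.π u.1)) := by
    intro X u
    exact (X.frob u.1).integral.map u.2.toIntAlgHom
  have hW : ∀ (X : RedAV p ν) (u : Wt X.X L) (ψ : L →+* ℂ),
      ‖ψ (u.2 (X.π u.1))‖ ^ 2 = (p : ℝ) ^ X.a := by
    intro X u ψ
    exact (X.frob u.1).weil (ψ.comp u.2)
  refine hru p ν L j _ _ Y.a Z.a Y.pos Z.pos (hI Y w) (hI Z w') (hW Y w) (hW Z w') fun σ => ?_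
  have h1 := hV Y hY w σ
  have h2 := hV Z hZ w' σ
  rw [h] at h1
  exact cancel_norm (norm_nonneg _) (norm_nonneg _) _ _ _ Nat.card_pos _ h1 h2

theorem co_eq_coord {L : Type} [Field L] [NumberField L] (jO : L →+* Ω) {Z : RedAV p ν}
    (e : Basis (Wt Z.X L) Ω (TM Ω Z))
    (h1 : ∀ w, co jO w (e w) = 1) (h2 : ∀ w w', w ≠ w' → co jO w (e w') = 0) (w : Wt Z.X L) :
    co jO w = e.coord w := by
  classical
  refine e.ext fun w' => ?_
  rw [Basis.coord_apply, Basis.repr_self, Finsupp.single_apply]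
  by_cases h : w' = w
  · subst h
    rw [if_pos rfl, h1]
  · rw [if_neg h, h2 w w' (Ne.symm h)]

theorem pull : S_pull := by
  intro hval hru hbas p _ ν Ω _ _ L _ _ _ _ j jO Z hZ κ iF iD J hJ hAlg iF' iD' Y hY I hI
  have e1 : iF = iF' := Subsingleton.elim _ _
  have e2 : iD = iD' := Subsingleton.elim _ _
  subst e1
  subst e2
  obtain ⟨eZ, he1, he2⟩ := hbas p ν Ω L j jO Z hZ
  have hc := co_eq_coord jO eZ he1 he2
  have hext : ∀ v v' : TM Ω Z, (∀ w, co jO w v = co jO w v') → v = v' := by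
    intro v v' h
    refine eZ.ext_elem fun w => ?_
    have h3 := h w
    rw [hc w] at h3
    exact h3
  choose n hn0 hn using fun k => match_weights hval hru j Y Z hY hZ (I k) (J k) (hI k)
  let h : TM Ω Y →ₗ[Ω] TM Ω Z := ∑ k, (co jO (I k)).smulRight (eZ (J k))
  have hh : ∀ w v, co jO w (h v) = ∑ k, co jO (I k) v * co jO w (eZ (J k)) := by
    intro w v
    change co jO w ((∑ k, (co jO (I k)).smulRight (eZ (J k))) v) = _
    rw [LinearMap.sum_apply, map_sum]
    refine Finset.sum_congr rfl fun k _ => ?_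
    rw [LinearMap.smulRight_apply, map_smul, smul_eq_mul]
  have hhJ : ∀ k v, co jO (J k) (h v) = co jO (I k) v := by
    intro k v
    rw [hh, Finset.sum_eq_single k, he1, mul_one]
    · intro k' _ hk
      rw [he2 _ _ (fun h => hk (hJ h).symm), mul_zero]
    · intro h
      exact absurd (Finset.mem_univ _) h
  have hF : IsFrobHom Ω Y Z h := by
    refine ⟨Z.a * ∏ k, n k, Y.a * ∏ k, n k, Nat.mul_pos Z.pos (Finset.prod_pos fun k _ => hn0 k),
      Nat.mul_pos Y.pos (Finset.prod_pos fun k _ => hn0 k), by ring, fun v => ?_⟩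
    refine hext _ _ fun w => ?_
    rw [hh, co_F_pow, hh, Finset.mul_sum]
    refine Finset.sum_congr rfl fun k _ => ?_
    by_cases hw : w = J k
    · subst hw
      have key : (I k).2 (Y.π (I k).1) ^ (Z.a * ∏ k, n k) =
          (J k).2 (Z.π (J k).1) ^ (Y.a * ∏ k, n k) := by
        obtain ⟨m, hm⟩ := Finset.dvd_prod_of_mem n (Finset.mem_univ k)
        rw [hm, ← mul_assoc, ← mul_assoc, pow_mul, pow_mul _ (Y.a * n k), hn k]
      rw [co_F_pow, he1, mul_one, mul_one, ← map_pow jO, ← map_pow jO, key]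
    · rw [he2 _ _ hw, mul_zero, mul_zero, mul_zero]
  have hmono : (monoO jO J).compLinearMap h = monoO jO I := by
    ext v
    unfold monoO
    rw [AlternatingMap.compLinearMap_apply, MultilinearMap.alternatization_apply,
      MultilinearMap.alternatization_apply]
    refine Finset.sum_congr rfl fun σ _ => ?_
    congr 1
    change ∏ k, co jO (J k) (h (v (σ k))) = ∏ k, co jO (I k) (v (σ k))
    exact Finset.prod_congr rfl fun k _ => hhJ k _
  rw [← hmono]
  exact Alg.pull h hF _ hAlg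

end

end Pool.Agent.W82.TA
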